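import Pool.Agent.VPI.ChainK

/-!
# An oracle relative to which `VP` is strictly contained in its approximative closure, which does not contain `VNP`

The field `k` is any infinite field.
-/

set_option autoImplicit false

open Pool.Agent.VPO Pool.Agent.VPN

namespace Pool.Agent.Results.MP_96a35c_lc.OracleChain

theorem result (k : Type) [Field k] [Infinite k] :
    ∃ G f g : PFamily k,
      (∀ n, G.vars n = 2 * n ∧ (G.poly n).totalDegree ≤ 3 * n ∧ f.vars n = n ∧ (f.poly n).totalDegree ≤ n ∧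
        g.vars n = n ∧ (g.poly n).totalDegree ≤ n) ∧
      (∀ n, Lapp G (f.poly n) ≤ 2 * n + 2) ∧
      (∀ n, 2 ^ n < 2 * (L G (f.poly n) + 1) ^ 2) ∧
      g ∈ VNP G ∧
      (∀ n, 2 ^ n < 4 * (Lapp G (g.poly n) + 1) ^ 2) ∧
      VP G ⊂ VPbar G ∧ VPbar G ⊂ VNPbar G ∧ ¬ VNP G ⊆ VPbar G := by
  obtain ⟨G, f, g, h1, h2, h3, h4, h5, h6, h7⟩ := VPI.thirdI k
  refine ⟨G, f, g, h1, h2, h3, h4, h5, h6, ?_, fun h => h7 (h h4)⟩
  exact Set.ssubset_iff_subset_ne.2 ⟨VPbar_subset_VNPbar G, fun h => h7 (by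
    rw [h]
    exact VNP_subset_VNPbar G h4)⟩

end Pool.Agent.Results.MP_96a35c_lc.OracleChain
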