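import Pool.Agent.VPN.Collapse

/-!
# An oracle relative to which `VP` is equal to the approximative closure of `VNP`

The field `k` is any infinite perfect field, for instance any field of characteristic `0` or any algebraically closed
field.
-/

set_option autoImplicit false

open Pool.Agent.VPO Pool.Agent.VPN

namespace Pool.Agent.Results.MP_96a35c_lc.OracleCollapse

theorem result (k : Type) [Field k] [Infinite k] [PerfectField k] :
    ∃ G : PFamily k,
      (∀ m, G.vars m = 32 * (m + 2) ^ 8 ∧ (G.poly m).totalDegree ≤ 32 * (m + 2) ^ 8) ∧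
      (∀ (s n : ℕ) (f : MvPolynomial (Fin n) k), n ≤ s → f.totalDegree ≤ s → LNapp G f ≤ s →
        L G f ≤ 32 * (s + 2) ^ 8 + 1) ∧
      VP G = VPbar G ∧ VP G = VNP G ∧ VP G = VNPbar G := by
  obtain ⟨G, h1, h2, h3⟩ := collapse k
  have h4 : VNPbar G ⊆ VP G := VP_eq_of_boundN h3
  have h5 := VPbar_subset_VNPbar G
  have h6 := VP_subset_VNP G
  have h7 := VNP_subset_VNPbar G
  exact ⟨G, fun m => ⟨h1 m, h2 m⟩, h3, Set.Subset.antisymm (VP_subset_VPbar G) (h5.trans h4),
    Set.Subset.antisymm h6 (h7.trans h4), Set.Subset.antisymm (h6.trans h7) h4⟩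

end Pool.Agent.Results.MP_96a35c_lc.OracleCollapse
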