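import Pool.Agent.VPI.FinalI

/-!
# An oracle relative to which `VP ≠ VNP` and `VNP` is contained in the approximative closure of `VP`

The field `k` is any infinite field. If it is perfect, moreover, `VNP` is equal to the approximative closure of `VP` (and to its own
approximative closure) relative to this oracle.
-/

set_option autoImplicit false

open Pool.Agent.VPO Pool.Agent.VPN

namespace Pool.Agent.Results.MP_96a35c_lc.OracleValiant

theorem result (k : Type) [Field k] [Infinite k] :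
    ∃ G f : PFamily k,
      (∀ n, G.vars n = 1024 * (n + 2) ^ 16 + 2 * n + 1 ∧ (G.poly n).totalDegree ≤ 1024 * (n + 2) ^ 16 + 2 * n + 1 ∧
        f.vars n = n ∧ (f.poly n).totalDegree ≤ n) ∧
      f ∈ VNP G ∧
      (∀ n, 2 ^ n < 2 * (L G (f.poly n) + 1) ^ 2) ∧
      (∀ (s n : ℕ) (g : MvPolynomial (Fin n) k), n ≤ s → g.totalDegree ≤ s → LNapp G g ≤ s →
        Lapp G g ≤ 1024 * (s + 2) ^ 16 + 2 * s + 3) ∧
      VP G ⊂ VPbar G ∧ VP G ⊂ VNP G ∧ VNP G ⊆ VPbar G ∧ VPbar G = VNPbar G ∧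
      (PerfectField k → VNP G = VPbar G) := by
  have hNV : ∀ n, NV n = 1024 * (n + 2) ^ 16 + 2 * n + 1 := by
    intro n
    unfold NV W
    ring
  obtain ⟨G, f, h1, h2, h3, h4, h5⟩ := VPI.mainI k
  have h6 : VNPbar G = VPbar G := VNPbar_eq_of_bound h4
  have h7 : VP G ⊂ VNP G := by
    refine Set.ssubset_iff_subset_ne.2 ⟨VP_subset_VNP G, fun h => ?_⟩
    have h8 : f ∈ VP G := by
      rw [h]
      exact h2
    obtain ⟨p, hp⟩ := h8
    obtain ⟨n, hn⟩ := exists_lt_two_pow p
    have h9 := h3 n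
    have h10 : 2 * (L G (f.poly n) + 1) ^ 2 ≤ 2 * (p.eval n + 1) ^ 2 :=
      Nat.mul_le_mul_left _ (Nat.pow_le_pow_left (Nat.succ_le_succ (hp n)) 2)
    omega
  have h8 : VNP G ⊆ VPbar G := by
    rw [← h6]
    exact VNP_subset_VNPbar G
  refine ⟨G, f, fun n => ?_, h2, h3, fun s n g hn hg hL => ?_, h7.trans_subset h8, h7, h8, h6.symm, fun hperf => ?_⟩
  · have h := h1 n
    rw [hNV] at h
    exact h
  · have h := h4 s n g hn hg hL
    rw [hNV] at h
    omega
  · rw [← h6]
    exact Set.Subset.antisymm (VNP_subset_VNPbar G) (VPP.VNP_eq_of_bound_p (h5 hperf))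

end Pool.Agent.Results.MP_96a35c_lc.OracleValiant
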